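import Pool.Agent.Work.MP_65e34f.Basic

/-!
# MP_65e34f_al : block SQR (square roots in `SL_2(K)`)
-/

set_option autoImplicit false

namespace Pool.FG.helper55

open Matrix

section
variable {K : Type} [Field K]

lemma tr_sq (a : SL K) : tr (a ^ 2) = tr a ^ 2 - 2 := by
  have h := tr_inv_mul a a
  rw [inv_mul_cancel, tr_one] at h
  rw [sq a]
  linear_combination h

lemma coe_sq (a : SL K) : ((a ^ 2 : SL K) : M2 K) = tr a • (a : M2 K) - 1 := by
  rw [sq, Matrix.SpecialLinearGroup.coe_mul, mul_self_eq]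

lemma Sc_sq_iff (a : SL K) : Sc (a ^ 2) ↔ tr a * a.1 0 1 = 0 ∧ tr a * a.1 1 0 = 0 ∧
    tr a * a.1 0 0 = tr a * a.1 1 1 := by
  rw [Sc_iff]
  have h := coe_sq a
  have e01 : (a ^ 2 : SL K).1 0 1 = tr a * a.1 0 1 := by
    have := congrFun (congrFun h 0) 1
    simpa using this
  have e10 : (a ^ 2 : SL K).1 1 0 = tr a * a.1 1 0 := by
    have := congrFun (congrFun h 1) 0
    simpa using this
  have e00 : (a ^ 2 : SL K).1 0 0 = tr a * a.1 0 0 - 1 := by
    have := congrFun (congrFun h 0) 0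
    simpa using this
  have e11 : (a ^ 2 : SL K).1 1 1 = tr a * a.1 1 1 - 1 := by
    have := congrFun (congrFun h 1) 1
    simpa using this
  rw [e01, e10, e00, e11]
  constructor
  · rintro ⟨h1, h2, h3⟩
    exact ⟨h1, h2, by linear_combination h3⟩
  · rintro ⟨h1, h2, h3⟩
    exact ⟨h1, h2, by linear_combination h3⟩

lemma sq_dichotomy (a : SL K) (h : Sc (a ^ 2)) : Sc a ∨ tr a = 0 := by
  by_cases ht : tr a = 0
  · exact Or.inr ht
  · left
    obtain ⟨h1, h2, h3⟩ := (Sc_sq_iff a).1 h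
    rw [Sc_iff]
    exact ⟨(mul_eq_zero.1 h1).resolve_left ht, (mul_eq_zero.1 h2).resolve_left ht,
      mul_left_cancel₀ ht h3⟩

lemma sq_of_tr_zero (a : SL K) (h : tr a = 0) : Sc (a ^ 2) := by
  rw [Sc_sq_iff, h]
  simp

lemma sq_unique (a b : SL K) (hz : ¬ Sc (b ^ 2)) (h : a ^ 2 = b ^ 2) : a = b ∨ a = -b := by
  have hb : tr b ≠ 0 := fun hb => hz (sq_of_tr_zero b hb)
  have h1 := tr_sq a
  rw [h, tr_sq b] at h1
  have h2 : (tr a - tr b) * (tr a + tr b) = 0 := by linear_combination -h1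
  have h3 : tr a • (a : M2 K) - 1 = tr b • (b : M2 K) - 1 := by
    rw [← coe_sq, ← coe_sq, h]
  have h4 : tr a • (a : M2 K) = tr b • (b : M2 K) := sub_left_injective h3
  rcases mul_eq_zero.1 h2 with h5 | h5
  · left
    have h6 : tr a = tr b := by linear_combination h5
    rw [h6] at h4
    apply Subtype.ext
    exact smul_right_injective (M2 K) hb h4
  · right
    have h6 : tr a = -tr b := by linear_combination h5
    rw [h6] at h4
    apply Subtype.ext
    rw [Matrix.SpecialLinearGroup.coe_neg]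
    apply smul_right_injective (M2 K) hb
    show tr b • (a : M2 K) = tr b • -(b : M2 K)
    rw [smul_neg, ← h4, neg_smul, neg_neg]

lemma exists_of_matrix (z : SL K) (M : M2 K) (hdet : M.det = 1) (h : M * M = z.1) :
    ∃ a : SL K, a ^ 2 = z := by
  have key : ∀ a : SL K, a.1 = M → a ^ 2 = z := by
    intro a ha
    rw [sq]
    apply Subtype.ext
    rw [Matrix.SpecialLinearGroup.coe_mul, ha]
    exact h
  exact ⟨⟨M, hdet⟩, key _ rfl⟩

lemma exists_sqrt (z : SL K) (w : K) (hw : w ≠ 0) (hz : tr z = w ^ 2 - 2) :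
    ∃ a : SL K, a ^ 2 = z := by
  have hd := det_eq z
  have ht : z.1 0 0 + z.1 1 1 = w ^ 2 - 2 := hz
  refine exists_of_matrix z (w⁻¹ • !![z.1 0 0 + 1, z.1 0 1; z.1 1 0, z.1 1 1 + 1]) ?_ ?_
  · rw [Matrix.det_smul, Matrix.det_fin_two_of]
    simp only [Fintype.card_fin]
    field_simp
    linear_combination hd + ht
  · ext i j
    fin_cases i <;> fin_cases j
    · simp [Matrix.mul_apply, Fin.sum_univ_two]
      field_simp
      linear_combination z.1 0 0 * ht - hd
    · simp [Matrix.mul_apply, Fin.sum_univ_two]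
      field_simp
      linear_combination z.1 0 1 * ht
    · simp [Matrix.mul_apply, Fin.sum_univ_two]
      field_simp
      linear_combination z.1 1 0 * ht
    · simp [Matrix.mul_apply, Fin.sum_univ_two]
      field_simp
      linear_combination z.1 1 1 * ht - hd

end

theorem stmt_SQR : Stmt_SQR := by
  intro K _ _
  refine ⟨?_, sq_dichotomy, sq_of_tr_zero, exists_sqrt⟩
  intro z hz
  by_cases hne : ∃ b : SL K, b ^ 2 = z
  · obtain ⟨b, rfl⟩ := hne
    have h1 : {a : SL K | a ^ 2 = b ^ 2} ⊆ {b, -b} := by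
      intro a ha
      rcases sq_unique a b hz ha with h | h
      · exact Or.inl h
      · exact Or.inr h
    exact (Set.ncard_le_ncard h1 (Set.toFinite _)).trans
      (Set.ncard_insert_le _ _ |>.trans (by simp))
  · have h1 : {a : SL K | a ^ 2 = z} = ∅ := by
      rw [Set.eq_empty_iff_forall_notMem]
      intro a ha
      exact hne ⟨a, ha⟩
    rw [h1, Set.ncard_empty]
    norm_num

end Pool.FG.helper55
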