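import Pool.Agent.Work.MP_65e34f.Basic

/-!
# MP_65e34f_al : blocks LIV and PHI (live periods, elements of order five)
-/

set_option autoImplicit false

namespace Pool.FG.helper55

open Matrix

section
variable {K : Type} [Field K]

/-- the Weyl element -/
def wey : SL K := ⟨!![0, 1; -1, 0], by simp⟩

lemma wey_not_Sc : ¬ Sc (wey : SL K) := by
  rw [Sc_iff]
  rintro ⟨h, -, -⟩
  simp [wey] at h

lemma wey_sq : Sc ((wey : SL K) ^ 2) := by
  right
  apply Subtype.ext
  rw [sq, Matrix.SpecialLinearGroup.coe_mul, Matrix.SpecialLinearGroup.coe_neg,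
    Matrix.SpecialLinearGroup.coe_one]
  ext i j
  fin_cases i <;> fin_cases j <;> simp [wey]

lemma not_Sc_of_order (l : ℕ) (hl : l.Prime) (h2 : l ≠ 2) (x : SL K) (hx : orderOf x = l) :
    ¬ Sc x := by
  rintro (rfl | rfl)
  · rw [orderOf_one] at hx
    exact hl.one_lt.ne hx
  · have h3 : orderOf (-1 : SL K) ∣ 2 := orderOf_dvd_of_pow_eq_one (by simp)
    rw [hx] at h3
    rcases (Nat.dvd_prime Nat.prime_two).1 h3 with h | h
    · exact hl.one_lt.ne h.symm
    · exact h2 h

theorem five (x : SL K) (hx : ¬ Sc x) (h5 : x ^ 5 = 1) : ∃ φ : K, φ ^ 2 = φ + 1 := by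
  set X : M2 K := (x : M2 K) with hX
  set t : K := tr x with ht
  have h2 : X * X = t • X - 1 := mul_self_eq x
  have h3 : X * X * X = (t ^ 2 - 1) • X - t • (1 : M2 K) := by
    rw [h2, sub_mul, smul_mul_assoc, h2, one_mul]
    module
  have h4 : X * X * X * X = (t ^ 3 - 2 * t) • X - (t ^ 2 - 1) • (1 : M2 K) := by
    rw [h3, sub_mul, smul_mul_assoc, smul_mul_assoc, h2, one_mul]
    module
  have h6 : X * X * X * X * X = (t ^ 4 - 3 * t ^ 2 + 1) • X - (t ^ 3 - 2 * t) • (1 : M2 K) := by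
    rw [h4, sub_mul, smul_mul_assoc, smul_mul_assoc, h2, one_mul]
    module
  have h7 : X * X * X * X * X = 1 := by
    have h8 : ((x ^ 5 : SL K) : M2 K) = X * X * X * X * X := by
      rw [pow_succ, pow_succ, pow_succ, pow_succ, pow_one]
      simp only [Matrix.SpecialLinearGroup.coe_mul, hX]
    rw [← h8, h5, Matrix.SpecialLinearGroup.coe_one]
  have h9 : t ^ 4 - 3 * t ^ 2 + 1 = 0 := by
    by_contra hne
    apply hx
    rw [h7] at h6
    rw [Sc_iff]
    have e01 := congrFun (congrFun h6 0) 1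
    have e10 := congrFun (congrFun h6 1) 0
    have e00 := congrFun (congrFun h6 0) 0
    have e11 := congrFun (congrFun h6 1) 1
    simp only [Matrix.sub_apply, Matrix.smul_apply, smul_eq_mul, Matrix.one_apply_ne
      (show (0 : Fin 2) ≠ 1 by decide), Matrix.one_apply_ne (show (1 : Fin 2) ≠ 0 by decide),
      Matrix.one_apply_eq, mul_zero, sub_zero, mul_one] at e01 e10 e00 e11
    refine ⟨?_, ?_, ?_⟩
    · exact (mul_eq_zero.1 e01.symm).resolve_left hne
    · exact (mul_eq_zero.1 e10.symm).resolve_left hne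
    · apply mul_left_cancel₀ hne
      linear_combination e11 - e00
  have h10 : (t ^ 2 - t - 1) * (t ^ 2 + t - 1) = 0 := by linear_combination h9
  rcases mul_eq_zero.1 h10 with h | h
  · exact ⟨t, by linear_combination h⟩
  · exact ⟨-t, by linear_combination h⟩

end

lemma one_lt_N (K : Type) [Field K] [Finite K] : 1 < Nat.card K * (Nat.card K ^ 2 - 1) := by
  have h2 := two_le_card (K := K)
  have h4 : 2 ^ 2 ≤ Nat.card K ^ 2 := Nat.pow_le_pow_left h2 2
  have h3 : 3 ≤ Nat.card K ^ 2 - 1 := by omega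
  calc 1 < 2 * 3 := by norm_num
    _ ≤ Nat.card K * (Nat.card K ^ 2 - 1) := Nat.mul_le_mul h2 h3

theorem stmt_LIV (hCRD : Stmt_CRD) : Stmt_LIV := by
  intro K _ _ m _
  have hN := hCRD K
  have h1N := one_lt_N K
  rw [← hN] at h1N ⊢
  constructor
  · rintro ⟨x, hx, hxm⟩ hco
    apply hx
    obtain ⟨u, -, hu⟩ := Nat.exists_mul_mod_eq_one_of_coprime hco h1N
    have h1 : x ^ (m * u) = x := by
      rw [← pow_mod_natCard, hu, pow_one]
    rw [← h1, pow_mul]
    exact hxm.pow u
  · intro hnc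
    obtain ⟨l, hl, hlm, hlN⟩ := Nat.Prime.not_coprime_iff_dvd.1 hnc
    obtain ⟨c, rfl⟩ := hlm
    by_cases h2 : l = 2
    · subst h2
      refine ⟨wey, wey_not_Sc, ?_⟩
      rw [pow_mul]
      exact wey_sq.pow c
    · have : Fact l.Prime := ⟨hl⟩
      obtain ⟨x, hx⟩ := exists_prime_orderOf_dvd_card' l hlN
      refine ⟨x, not_Sc_of_order l hl h2 x hx, ?_⟩
      rw [pow_mul, ← hx, pow_orderOf_eq_one, one_pow]
      exact Sc_one

theorem stmt_PHI (hCRD : Stmt_CRD) : Stmt_PHI := by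
  intro K _ _ h5
  have hN := hCRD K
  have : Fact (Nat.Prime 5) := ⟨by norm_num⟩
  obtain ⟨x, hx⟩ := exists_prime_orderOf_dvd_card' (G := SL K) 5
    (by rw [hN]; exact Dvd.dvd.mul_left h5 _)
  exact five x (not_Sc_of_order 5 (by norm_num) (by norm_num) x hx)
    (by rw [← hx]; exact pow_orderOf_eq_one x)

end Pool.FG.helper55
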